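import Pool.Agent.Lib.MP_5b6025_nt.EP.Main
import Pool.Agent.Lib.MP_5b6025_nt.EP.PSI
import Pool.Agent.Lib.MP_5b6025_nt.EP.CT0
import Pool.Agent.Lib.MP_5b6025_nt.EP.PII
import Pool.Agent.Lib.MP_5b6025_nt.EP.Cor

/-!
# MP_5b6025_nt: expansions of irrational algebraic numbers beat every power of `log N`

Let `t_n` be a bounded sequence of integers such that `∑ t_n b^(-n)` is irrational and algebraic.
Then the number of nonzero terms among the first `N` terms is at least `(log N)^c` for all large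
`N`, for every real `c`.
-/

set_option autoImplicit false

namespace Pool.Agent.Results.MP_5b6025_nt.EveryPower

open Pool.Agent.Lib.MP5b6025

theorem result (b : ℕ) (t : ℕ → ℤ) (B : ℕ) (hb : 2 ≤ b) (hB : ∀ n, |t n| ≤ B)
    (halg : IsAlgebraic ℚ (∑' n, (t n : ℝ) / (b : ℝ) ^ n))
    (hirr : Irrational (∑' n, (t n : ℝ) / (b : ℝ) ^ n)) (c : ℝ) :
    ∃ N₀ : ℕ, ∀ N : ℕ, N₀ ≤ N →
      Real.log N ^ c ≤ ((Finset.range N).filter fun n => t n ≠ 0).card := by
  have hPII : EP.SpecPII :=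
    EP.specPII EP.sum' (EP.typ' EP.specPSI (EP.specCT0 EP.wt'))
      (EP.specCNS EP.specCMP EP.sum' EP.wt') (EP.specUNQ EP.specCMP EP.sum' EP.wt')
      (EP.specGOD EP.sum') EP.fns'
  exact EP.thm' hPII b t B hb hB halg hirr c

end Pool.Agent.Results.MP_5b6025_nt.EveryPower
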