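import Pool.Agent.Lib.MP_5b6025_nt.FE.All

/-!
# Digits of almost all elements of a real number field, up to `N = exp (H ^ δ)`

`Elements θ H` is the set of the real numbers `(a₀ + a₁ θ₁ + ... + a_m θ_m) / s` with integers
`|a_i| ≤ H`, `1 ≤ s ≤ H`, and `Balanced b τ N x` says that every word over `{0, …, b-1}` has a
frequency within `τ` of the expected one among the first `N` base-`b` digits of `x`
(both defined in `Pool.Agent.Lib.MP_5b6025_nt.FE.Defs`).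

If `1, θ₁, …, θ_m` is a basis of a real number field `K` then the sets `Elements θ H` exhaust `K`.
For every `ε > 0` there is `δ > 0` such that for all large `H` all but a proportion `ε` of the elements of
`Elements θ H` have balanced digits in all bases up to `H ^ δ`, with a power saving error term, at all levels `N`
up to `exp (H ^ δ)`.
-/

set_option autoImplicit false

open Pool.Agent.Lib.MP_5b6025_nt.FE

namespace Pool.Agent.Results.MP_5b6025_nt.FieldElements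

theorem result : ∀ ε : ℝ, 0 < ε → ∃ δ : ℝ, 0 < δ ∧ ∃ H₀ : ℕ, ∀ (m : ℕ) (θ : Fin m → ℝ), 1 ≤ m →
    LinearIndependent ℚ (Fin.cons (1 : ℝ) θ : Fin (m + 1) → ℝ) → ∀ H : ℕ, H₀ ≤ H →
      (Elements θ H).Finite ∧ 0 < (Elements θ H).ncard ∧
      (({x ∈ Elements θ H | ¬ ∀ b N : ℕ, 2 ≤ b → (b : ℝ) ≤ (H : ℝ) ^ δ →
        ((b : ℝ) / δ) ^ 4 ≤ (N : ℝ) → (N : ℝ) ≤ Real.exp ((H : ℝ) ^ δ) →
          Balanced b (1 / (N : ℝ) ^ ((1 : ℝ) / 8) + 1 / (H : ℝ) ^ δ) N x}.ncard : ℕ) : ℝ) ≤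
        ε * ((Elements θ H).ncard : ℝ) := by
  intro ε hε
  obtain ⟨δ, hδ, H₀, h⟩ := dFIN ε hε
  refine ⟨δ, hδ, H₀, fun m θ hm hθ H hH => ?_⟩
  obtain ⟨h1, h2, h3⟩ := h m θ hm hθ H hH
  refine ⟨h1, h2, le_trans ?_ h3⟩
  have h4 : {x ∈ Elements θ H | ¬ ∀ b N : ℕ, 2 ≤ b → (b : ℝ) ≤ (H : ℝ) ^ δ →
      ((b : ℝ) / δ) ^ 4 ≤ (N : ℝ) → (N : ℝ) ≤ Real.exp ((H : ℝ) ^ δ) →
        Balanced b (1 / (N : ℝ) ^ ((1 : ℝ) / 8) + 1 / (H : ℝ) ^ δ) N x} ⊆
      {x ∈ Elements θ H | ¬ (Good1 ((H : ℝ) ^ δ) δ x ∧ Good2 ((H : ℝ) ^ δ) x)} := by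
    intro x hx
    refine ⟨hx.1, fun h5 => hx.2 ?_⟩
    intro b N hb hbG hN1 hN2
    exact h5.1 b hb hbG N hN1 hN2
  exact_mod_cast Set.ncard_le_ncard h4 (h1.subset fun x hx => hx.1)

end Pool.Agent.Results.MP_5b6025_nt.FieldElements
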