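import Pool.Agent.Lib.MP_5b6025_nt.RB.Main

/-!
# MP_5b6025_nt: a power of `N` for all linear relations between digits, uniformly in the base

Let `x` be a real algebraic number and `p` a prime such that every prime ideal of the integers of
`ℚ(x)` above `p` is ramified. For every `k` there is `δ > 0` such that for all `0 < e ≤ 1` there is one
`N₀` such that for all `N ≥ N₀`, ALL bases `b` prime to `p` and all integer polynomials `g` of degree
`≤ N^(1-e)` with coefficients at most `b^(N^(1-e))` and `p^(k+1) ∤ g(b)` at least `N^(δ e)` of the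
`n < N` satisfy `∑_j g_j d_(n+j) ≠ 0`, where `d_n` are the base `b` digits of `x`. (For `k = 0` primes
above `p` which are poles of `x` are allowed.) Second part: uniformity in `x`. Third and fourth part:
Eisenstein polynomials and quadratic polynomials satisfy the hypothesis of the second part.

Method: the integer power series `T = ∑ t_n z^n`, `t_n = ∑_j g_j d_(n+j)`, satisfies
`P(T) = (1 - b z) U` with `U` sparse if `T` is sparse (change of the base `b → b^M`, `M = N^(1-e)`, and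
exactness at gaps). If `F^q ∈ (p^(cq+1), P)`, `q = p^j`, then the Frobenius modulo `p` shows
`F(T) = (1 - b z) A + p^(c+1) y` with `A`, `y` sparse. So `p^(2c+1)` would be
`(1 - b z) S + p^(2c+2) Z` with `S` sparse; the coefficient of `z^i` of the quotient by `1 - b z` is
`p^(2c+1) b^i`, not divisible by `p^(2c+2)`: contradiction if the `i`-th coefficient of `S` is `0`.
-/

set_option autoImplicit false

open Polynomial NumberField

namespace Pool.Agent.Results.MP_5b6025_nt.RamifiedAllBases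

/-- The `(n+1)`-st digit after the point of `x` in base `b`. -/
noncomputable def digit (b : ℕ) (x : ℝ) (n : ℕ) : ℤ := ⌊x * (b : ℝ) ^ (n + 1)⌋ % (b : ℤ)

/-- The number of `n < N` with `∑_j g_j d_(n+j) ≠ 0`, `d_m = digit b x m`. -/
noncomputable def num (N b : ℕ) (g : ℤ[X]) (x : ℝ) : ℕ :=
  ((Finset.range N).filter fun n =>
    ∑ j ∈ Finset.range (g.natDegree + 1), g.coeff j * digit b x (n + j) ≠ 0).card

/-- Every prime ideal `Q` of the ring `R` with `p ∈ Q` satisfies `p ∈ Q^2`, or `k = 0` and `Q`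
contains every `s` with the property `pole`. -/
def AboveIn (R : Type) [CommRing R] (pole : R → Prop) (p k : ℕ) : Prop :=
  ∀ Q : Ideal R, Q.IsPrime → (p : R) ∈ Q → (p : R) ∈ Q ^ 2 ∨ (k = 0 ∧ ∀ s : R, pole s → s ∈ Q)

/-- Every prime ideal `Q` above `p` of the ring of integers of `ℚ(x)` is ramified (`p ∈ Q^2`), or
`k = 0` and `Q` is a pole of `x` (every `s` with `s x` integral is in `Q`). -/
def Above (p k : ℕ) (x : ℝ) : Prop :=
  AboveIn (𝓞 (IntermediateField.adjoin ℚ {x}))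
    (fun s => IsIntegral ℤ (((s : IntermediateField.adjoin ℚ {x}) : ℝ) * x)) p k

/-- `p^(2c+1) ∈ I^2 + (p^(2c+2), W)`, where `I` is the ideal of `ℤ[X]` generated by all `F` with
`F^q ∈ (p^(cq+1), W)`, `q = p^j`. -/
def Level (p c j : ℕ) (W : ℤ[X]) : Prop :=
  (p : ℤ[X]) ^ (2 * c + 1) ∈
    (Ideal.span {F : ℤ[X] | F ^ p ^ j ∈ Ideal.span {(p : ℤ[X]) ^ (c * p ^ j + 1), W}}) ^ 2 ⊔
      Ideal.span {(p : ℤ[X]) ^ (2 * c + 2), W}

/-- The coefficients of `g` have size at most `b^t`. -/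
def Small (b : ℕ) (t : ℝ) (g : ℤ[X]) : Prop := ∀ i, |(g.coeff i : ℝ)| ≤ (b : ℝ) ^ t

/-- Part 1 for `p`, `k`, `x`. -/
def Fixed (p k : ℕ) (x : ℝ) : Prop :=
  ∃ δ : ℝ, 0 < δ ∧ ∀ e : ℝ, 0 < e → e ≤ 1 → ∃ N₀ : ℕ, ∀ N b : ℕ, N₀ ≤ N → 2 ≤ b → ¬ p ∣ b →
    ∀ g : ℤ[X], (g.natDegree : ℝ) ≤ (N : ℝ) ^ (1 - e) → Small b ((N : ℝ) ^ (1 - e)) g →
      ¬ (p : ℤ) ^ (k + 1) ∣ g.eval (b : ℤ) → (N : ℝ) ^ (δ * e) ≤ num N b g x

/-- Part 2 for `p`, `d`, `c`, `j`; `δ` and `N₀` do not depend on `x`, `W`, `g`, `b`. -/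
def Uniform (p d c j : ℕ) : Prop :=
  ∃ δ : ℝ, 0 < δ ∧ ∀ e : ℝ, 0 < e → e ≤ 1 → ∃ N₀ : ℕ, ∀ N b : ℕ, N₀ ≤ N → 2 ≤ b → ¬ p ∣ b →
    ∀ (W g : ℤ[X]) (x : ℝ), W.natDegree ≤ d → (g.natDegree : ℝ) ≤ (N : ℝ) ^ (1 - e) →
      Small b ((N : ℝ) ^ (1 - e)) W → Small b ((N : ℝ) ^ (1 - e)) g → Level p c j W →
      aeval (((g.eval (b : ℤ) : ℤ) : ℝ) * x) W = 0 → (N : ℝ) ^ (δ * e) ≤ num N b g x

theorem result :
    (∀ (p k : ℕ) (x : ℝ), p.Prime → IsAlgebraic ℚ x → Above p k x → Fixed p k x) ∧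
    (∀ p d c j : ℕ, p.Prime → Uniform p d c j) ∧
    (∀ (p j : ℕ) (W : ℤ[X]), p.Prime → W.IsEisensteinAt (Ideal.span {(p : ℤ)}) →
      2 ≤ W.natDegree → W.natDegree ≤ p ^ j → Level p 0 j W) ∧
    (∀ (p c j : ℕ) (α β γ Δ : ℤ), p.Prime → p ≠ 2 → 2 * c + 3 ≤ p ^ j →
      β ^ 2 - 4 * α * γ = (p : ℤ) ^ (2 * c + 1) * Δ → ¬ (p : ℤ) ∣ Δ →
      Level p c j (C α * X ^ 2 + C β * X + C γ)) := by
  have hnum : ∀ (N b : ℕ) (g : ℤ[X]) (x : ℝ), ((Finset.range N).filter fun n =>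
      g.sum (fun j a => a * Pool.Agent.Lib.MP5b6025.DC.digit b x (n + j)) ≠ 0).card =
        num N b g x := by
    intro N b g x
    unfold num
    congr 1
    refine Finset.filter_congr fun n _ => ?_
    rw [Polynomial.sum_over_range _ (fun j => by rw [zero_mul])]
    rfl
  refine ⟨fun p k x hp hx hA => ?_, fun p d c j hp => ?_, fun p j W hp hE h2 hj => ?_,
    fun p c j α β γ Δ hp hp2 hj hΔ hpΔ => ?_⟩
  · obtain ⟨δ, hδ, h⟩ := Pool.Agent.Lib.MP5b6025.RB.mainFIX p k x hp hx hA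
    refine ⟨δ, hδ, fun e he he1 => ?_⟩
    obtain ⟨N₀, h⟩ := h e he he1
    refine ⟨N₀, fun N b hN hb hpb g hg hgc hpg => ?_⟩
    rw [← hnum]
    exact h N b g hN hb hpb hg hgc hpg
  · obtain ⟨δ, hδ, h⟩ := Pool.Agent.Lib.MP5b6025.RB.mainC p (max d 1) c j hp (le_max_right _ _)
    refine ⟨δ, hδ, fun e he he1 => ?_⟩
    obtain ⟨N₀, h⟩ := h e he he1
    refine ⟨N₀, fun N b hN hb hpb W g x hW hg hWc hgc hR hx => ?_⟩
    rw [← hnum]
    exact h N b W g x hN hb hpb (hW.trans (le_max_left _ _)) hg hWc hgc hR hx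
  · exact Pool.Agent.Lib.MP5b6025.RB.specEIS p j W hp h2 hj hE
  · exact Pool.Agent.Lib.MP5b6025.RB.specQUA p c j α β γ Δ hp hp2 hj hΔ hpΔ

end Pool.Agent.Results.MP_5b6025_nt.RamifiedAllBases
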