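import Pool.Agent.Lib.MP_5b6025_nt.RM.ASM2
import Pool.Agent.Lib.MP_5b6025_nt.RM.ALG2
import Pool.Agent.Lib.MP_5b6025_nt.RM.CNT
import Pool.Agent.Lib.MP_5b6025_nt.RM.COM
import Pool.Agent.Lib.MP_5b6025_nt.RM.CLP
import Pool.Agent.Lib.MP_5b6025_nt.RM.BLK
import Pool.Agent.Lib.MP_5b6025_nt.RM.FRB
import Pool.Agent.Lib.MP_5b6025_nt.RM.EX2

/-!
# MP_5b6025_nt: a power of `N` from a prime whose divisors are ramified or poles

Let `t_1, ..., t_r` be bounded sequences of integers such that the numbers `x_i = ∑ t_i(n) b^(-n)` are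
algebraic, `K = ℚ(x_1, ..., x_r)`, and let `p` be a prime number which does not divide `b` such that every
prime ideal `P` of the ring of integers of `K` above `p` is ramified (`p ∈ P^2`) or a pole of some `x_i`
(every `s ∈ 𝓞 K` such that `s x_i` is integral is in `P`). Then the number of `n < N` with some
`t_i(n) ≠ 0` is at least `N^δ` for all large `N`, with some `δ > 0`.
-/

set_option autoImplicit false

open NumberField

namespace Pool.Agent.Results.MP_5b6025_nt.RamifiedPrimes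

open Pool.Agent.Lib.MP5b6025

theorem result (r b p B : ℕ) (t : Fin r → ℕ → ℤ) (x : Fin r → ℝ) (hb : 2 ≤ b)
    (hB : ∀ i n, |t i n| ≤ B) (hx : ∀ i, x i = ∑' n, (t i n : ℝ) / (b : ℝ) ^ n)
    (halg : ∀ i, IsAlgebraic ℚ (x i)) (hp : p.Prime) (hpb : ¬ p ∣ b)
    (hram : ∀ P : Ideal (𝓞 (IntermediateField.adjoin ℚ (Set.range x))), P.IsPrime →
      (p : 𝓞 (IntermediateField.adjoin ℚ (Set.range x))) ∈ P →
      (p : 𝓞 (IntermediateField.adjoin ℚ (Set.range x))) ∈ P ^ 2 ∨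
      ∃ i, ∀ s : 𝓞 (IntermediateField.adjoin ℚ (Set.range x)),
        IsIntegral ℤ (((s : IntermediateField.adjoin ℚ (Set.range x)) : ℝ) * x i) → s ∈ P) :
    ∃ δ : ℝ, 0 < δ ∧ ∃ N₀ : ℕ, ∀ N : ℕ, N₀ ≤ N →
      (N : ℝ) ^ δ ≤ ((Finset.range N).filter fun n => ∃ i, t i n ≠ 0).card :=
  RM.thm2 RM.specCOM RM.specCLP RM.specBLK RM.specFRB RM.specEX2 RM.specALG2 RM.specCNT r b p B t x
    hb hB hp hpb hx halg hram

end Pool.Agent.Results.MP_5b6025_nt.RamifiedPrimes
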